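import Pool.Agent.U84.AWQ.Stm
import Pool.Agent.R456.CL.Inf1

/-!
# Project AWQ, package INF1: a properly infinite projection contains, after a central cut, a large
infinite family of pairwise orthogonal equivalent projections, with a small remainder. The proof is
the one of `Pool.Agent.R456.CL.Inf1` (factors), with generalized comparability in place of
comparability.
-/

set_option autoImplicit false

namespace Pool.Agent.U429.AWQ

open Pool.Agent.R456.CL Pool.Agent.U84.AWQ Pool.Agent.R456.CL.Inf1

universe u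

section central

variable {A : Type u} [CStarAlgebra A] {z : A}

theorem cp_pj (hz : CP z) {p : A} (hp : PJ p) : PJ (z * p) := by
  apply pj_mk
  · have e1 : z * p * (z * p) = z * (p * z) * p := by noncomm_ring
    rw [e1, ← hz.2 p, ← mul_assoc, pj_idem hz.1, mul_assoc, pj_idem hp]
  · rw [star_mul, pj_star hp, pj_star hz.1, hz.2 p]

theorem cp_mul (hz : CP z) (a b : A) : (z * a) * (z * b) = z * (a * b) := by
  have e1 : z * a * (z * b) = z * (a * z) * b := by noncomm_ring
  rw [e1, ← hz.2 a, ← mul_assoc, pj_idem hz.1, mul_assoc]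

theorem cp_star (hz : CP z) (a : A) : star (z * a) = z * star a := by
  rw [star_mul, pj_star hz.1, hz.2 (star a)]

theorem cp_eqv (hz : CP z) {p q : A} (h : Eqv p q) : Eqv (z * p) (z * q) := by
  obtain ⟨v, h1, h2⟩ := h
  refine ⟨z * v, ?_, ?_⟩
  · rw [cp_star hz, cp_mul hz, h1]
  · rw [cp_star hz, cp_mul hz, h2]

end central

theorem cp_one {A : Type u} [CStarAlgebra A] : CP (1 : A) :=
  ⟨pj_mk (one_mul 1) (star_one A), fun x => by rw [one_mul, mul_one]⟩

theorem t_INF1 : S_INF1.{u} := by
  classical
  intro A _ hSup _ hGCO g hPI hg0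
  have hg : PJ g := hPI.1
  have hinf : Infin g := by
    have h := hPI.2 1 cp_one (by rw [one_mul]; exact hg0)
    rwa [one_mul] at h
  obtain ⟨v, hv1, hv2, hv3⟩ := hinf
  have hvg : v * g = v := init hg hv1
  have hgv : g * v = v := fin_le hg hv2
  have hgv' : star v * g = star v := by
    have := congrArg star hgv
    rwa [star_mul, pj_star hg] at this
  have hvg' : g * star v = star v := by
    have := congrArg star hvg
    rwa [star_mul, pj_star hg] at this
  have hvv : PJ (v * star v) := final hg hv1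
  have hvvv : v * star v * v = v := final_mul hg hv1
  set s : ℕ → A := seq g v with hs
  have s0 : s 0 = g - v * star v := rfl
  have ss : ∀ n, s (n + 1) = v * s n * star v := fun n => rfl
  -- projections below g
  have hle : ∀ n, s n * g = s n := by
    intro n
    cases n with
    | zero =>
      rw [s0, sub_mul, pj_idem hg, hv2]
    | succ n =>
      rw [ss, mul_assoc, hgv']
  have hpj : ∀ n, PJ (s n) := by
    intro n
    induction n with
    | zero =>
      apply pj_mk
      · rw [s0]
        have e1 : (g - v * star v) * (g - v * star v) =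
            g * g - (g * v) * star v - v * star v * g + v * star v * (v * star v) := by
          noncomm_ring
        rw [e1, pj_idem hg, hgv, hv2, pj_idem hvv]
        abel
      · rw [s0, star_sub, pj_star hg, pj_star hvv]
    | succ n ih =>
      apply pj_mk
      · rw [ss]
        have e1 : v * s n * star v * (v * s n * star v) = v * (s n * (star v * v)) * s n * star v := by
          noncomm_ring
        rw [e1, hv1, hle, mul_assoc v (s n) (s n), pj_idem ih]
      · rw [ss, star_mul, star_mul, star_star, pj_star ih, mul_assoc]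
  have h0v : s 0 * v = 0 := by
    rw [s0, sub_mul, hgv, hvvv, sub_self]
  have horth : ∀ m n, m < n → s m * s n = 0 := by
    intro m
    induction m with
    | zero =>
      intro n hn
      obtain ⟨k, rfl⟩ : ∃ k, n = k + 1 := ⟨n - 1, by omega⟩
      rw [ss]
      have e1 : s 0 * (v * s k * star v) = (s 0 * v) * s k * star v := by noncomm_ring
      rw [e1, h0v, zero_mul, zero_mul]
    | succ m ih =>
      intro n hn
      obtain ⟨k, rfl⟩ : ∃ k, n = k + 1 := ⟨n - 1, by omega⟩
      rw [ss, ss]
      have e1 : v * s m * star v * (v * s k * star v) = v * (s m * (star v * v)) * s k * star v := by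
        noncomm_ring
      rw [e1, hv1, hle, mul_assoc v (s m) (s k), ih k (by omega), mul_zero, zero_mul]
  have horth' : ∀ m n, m ≠ n → s m * s n = 0 := by
    intro m n hmn
    rcases lt_or_gt_of_ne hmn with h | h
    · exact horth m n h
    · have h1 := congrArg star (horth n m h)
      rwa [star_mul, star_zero, pj_star (hpj m), pj_star (hpj n)] at h1
  have hp0 : s 0 ≠ 0 := by
    rw [s0]
    intro h
    exact hv3 (sub_eq_zero.1 h).symm
  have heqv : ∀ n, Eqv (s 0) (s n) := by
    intro n
    induction n with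
    | zero =>
      refine ⟨s 0, ?_, ?_⟩
      · rw [pj_star (hpj 0), pj_idem (hpj 0)]
      · rw [pj_star (hpj 0), pj_idem (hpj 0)]
    | succ n ih =>
      apply eqv_trans (hpj 0) (hpj n) ih
      refine ⟨v * s n, ?_, ?_⟩
      · have e1 : star (v * s n) * (v * s n) = s n * (star v * v) * s n := by
          rw [star_mul, pj_star (hpj n)]; noncomm_ring
        rw [e1, hv1, hle, pj_idem (hpj n)]
      · have e1 : v * s n * star (v * s n) = v * (s n * s n) * star v := by
          rw [star_mul, pj_star (hpj n)]; noncomm_ring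
        rw [e1, pj_idem (hpj n), ss]
  set p : A := s 0 with hp
  have hpP : PJ p := hpj 0
  -- Zorn
  set Sset : Set (Set A) := {F : Set A | (∀ q ∈ F, PJ q ∧ Le q g ∧ Eqv p q) ∧
    ∀ q ∈ F, ∀ q' ∈ F, q ≠ q' → q * q' = 0} with hSset
  have hF0 : Set.range s ∈ Sset := by
    refine ⟨?_, ?_⟩
    · rintro q ⟨n, rfl⟩
      exact ⟨hpj n, hle n, heqv n⟩
    · rintro q ⟨n, rfl⟩ q' ⟨n', rfl⟩ hne
      apply horth'
      rintro rfl
      exact hne rfl
  obtain ⟨F, hsub, hFmax⟩ := zorn_subset_nonempty Sset (by
    intro c hc hchain _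
    refine ⟨⋃₀ c, ⟨?_, ?_⟩, fun t ht => Set.subset_sUnion_of_mem ht⟩
    · rintro q ⟨t, ht, hq⟩
      exact (hc ht).1 q hq
    · rintro q ⟨t, ht, hq⟩ q' ⟨t', ht', hq'⟩ hne
      rcases hchain.total ht ht' with h | h
      · exact (hc ht').2 q (h hq) q' hq' hne
      · exact (hc ht).2 q hq q' (h hq') hne) (Set.range s) hF0
  have hFS : F ∈ Sset := hFmax.prop
  obtain ⟨hF1, hF2⟩ := hFS
  have hpF : p ∈ F := hsub ⟨0, rfl⟩
  obtain ⟨E, hE⟩ := hSup (↥F) (fun i => i.1) (fun i => (hF1 i.1 i.2).1)
  obtain ⟨hEP, hE1, hE2⟩ := hE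
  have hqE : ∀ q ∈ F, q * E = q := fun q hq => hE1 ⟨q, hq⟩
  have hEq : ∀ q ∈ F, E * q = q := fun q hq => le_left (hF1 q hq).1 hEP (hqE q hq)
  have hgE : g * E = E := by
    have h1 := hE2 (1 - g) (fun i => by
      rw [sub_mul, one_mul, le_left (hF1 i.1 i.2).1 hg (hF1 i.1 i.2).2.1, sub_self])
    rw [sub_mul, one_mul, sub_eq_zero] at h1
    exact h1.symm
  have hEg : E * g = E := by
    have := congrArg star hgE
    rwa [star_mul, pj_star hg, pj_star hEP] at this
  set r : A := g - E with hr
  have hrP : PJ r := by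
    apply pj_mk
    · rw [hr]
      have e1 : (g - E) * (g - E) = g * g - g * E - E * g + E * E := by noncomm_ring
      rw [e1, pj_idem hg, hgE, hEg, pj_idem hEP]
      abel
    · rw [hr, star_sub, pj_star hg, pj_star hEP]
  have hrg : r * g = r := by
    rw [hr, sub_mul, pj_idem hg, hEg]
  have hrq : ∀ q ∈ F, r * q = 0 := by
    intro q hq
    rw [hr, sub_mul, le_left (hF1 q hq).1 hg (hF1 q hq).2.1, hEq q hq, sub_self]
  have hnotsub : ¬ Sub p r := by
    intro h
    obtain ⟨w, hw1, hw2⟩ := h
    set p' : A := w * star w with hp'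
    have hp'P : PJ p' := final hpP hw1
    have hp'q : ∀ q ∈ F, p' * q = 0 := by
      intro q hq
      rw [← hw2, mul_assoc, hrq q hq, mul_zero]
    have hqp' : ∀ q ∈ F, q * p' = 0 := by
      intro q hq
      have := congrArg star (hp'q q hq)
      rwa [star_mul, star_zero, pj_star hp'P, pj_star (hF1 q hq).1] at this
    have hpp' : Eqv p p' := ⟨w, hw1, rfl⟩
    have hp'0 : p' ≠ 0 := eqv_ne_zero hpp' hp0
    have hnot : p' ∉ F := by
      intro h
      have := hp'q p' h
      rw [pj_idem hp'P] at this
      exact hp'0 this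
    have hins : insert p' F ∈ Sset := by
      refine ⟨?_, ?_⟩
      · rintro q (rfl | hq)
        · refine ⟨hp'P, ?_, hpp'⟩
          show p' * g = p'
          rw [← hw2, mul_assoc, hrg]
        · exact hF1 q hq
      · rintro q (rfl | hq) q' (rfl | hq') hne
        · exact absurd rfl hne
        · exact hp'q q' hq'
        · exact hqp' q hq
        · exact hF2 q hq q' hq' hne
    exact hnot (hFmax.le_of_ge hins (Set.subset_insert _ _) (Set.mem_insert _ _))
  obtain ⟨z, hz, hz1, hz2⟩ := hGCO r p hrP hpP (hrq p hpF)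
  have hzp : z * p ≠ 0 := by
    intro h0
    apply hnotsub
    obtain ⟨w, hw1, hw2⟩ := hz2
    refine ⟨w, ?_, ?_⟩
    · rw [hw1, sub_mul, one_mul, h0, sub_zero]
    · calc w * star w * r = w * star w * ((1 - z) * r) * r := by rw [hw2]
        _ = w * star w * ((1 - z) * (r * r)) := by noncomm_ring
        _ = w * star w := by rw [pj_idem hrP, hw2]
  have hgp : g * p = p := le_left hpP hg (hle 0)
  have hzg : z * g ≠ 0 := by
    intro h0
    apply hzp
    rw [← hgp, ← mul_assoc, h0, zero_mul]
  refine ⟨z, hz, hzg, ↥F, fun i => z * i.1, z * E, ?_, fun i => cp_pj hz (hF1 i.1 i.2).1, ?_, ?_,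
    ?_, ⟨cp_pj hz hEP, ?_, ?_⟩, ?_⟩
  · -- infinite
    apply Infinite.of_injective (fun n : ℕ => (⟨s n, hsub ⟨n, rfl⟩⟩ : ↥F))
    intro m n hmn
    by_contra hne
    have h1 : s m = s n := congrArg Subtype.val hmn
    have h2 := horth' m n hne
    rw [← h1, pj_idem (hpj m)] at h2
    exact eqv_ne_zero (heqv m) hp0 h2
  · intro i j hij
    rw [cp_mul hz, hF2 i.1 i.2 j.1 j.2 (fun h => hij (Subtype.ext h)), mul_zero]
  · intro i
    show (z * i.1) * (z * g) = z * i.1
    rw [cp_mul hz, (hF1 i.1 i.2).2.1]
  · intro i j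
    exact cp_eqv hz
      (eqv_trans (hF1 i.1 i.2).1 hpP (eqv_symm (hF1 i.1 i.2).2.2) (hF1 j.1 j.2).2.2)
  · intro i
    show (z * i.1) * (z * E) = z * i.1
    rw [cp_mul hz, hE1 i]
  · intro x hx
    rw [← mul_assoc]
    apply hE2
    intro i
    rw [mul_assoc]
    exact hx i
  · intro i
    rw [← mul_sub]
    exact sub_eqv (cp_pj hz hpP) hz1 (cp_eqv hz (hF1 i.1 i.2).2.2)

end Pool.Agent.U429.AWQ
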